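import Pool.Agent.V8H1.TW.Gal
import Pool.Agent.Helper11K9.Dens.Cheb

/-!
# Primes with prescribed quadratic symbols and no root (a root) of a biquadratic polynomial
-/

set_option autoImplicit false

namespace Pool.Agent.V8H1.TW

open NumberField Pool.Agent.W401.Cheb Pool.Agent.Helper11K9.Dens

theorem int_sq {L : Type} [Field L] {x : L} {c : ℤ} (h : x ^ 2 = (c : L)) : IsIntegral ℤ x := by
  refine IsIntegral.of_pow (n := 2) (by norm_num) ?_
  rw [h, ← eq_intCast (algebraMap ℤ L)]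
  exact isIntegral_algebraMap

theorem int_root {L : Type} [Field L] {a b : ℤ} {θ : L}
    (h : θ ^ 4 + (a : L) * θ ^ 2 + (b : L) = 0) : IsIntegral ℤ θ := by
  refine ⟨Polynomial.X ^ 4 + Polynomial.C a * Polynomial.X ^ 2 + Polynomial.C b, by monicity!, ?_⟩
  rw [Polynomial.eval₂_add, Polynomial.eval₂_add, Polynomial.eval₂_mul, Polynomial.eval₂_C,
    Polynomial.eval₂_C, Polynomial.eval₂_X_pow, Polynomial.eval₂_X_pow, eq_intCast, eq_intCast]
  exact h

section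
variable {L : Type} [Field L] [NumberField L] {ℓ : ℕ} [Fact ℓ.Prime]

/-- a square root fixed by the Frobenius element gives a square in `ℤ/ℓ` -/
theorem isSquare_of_frob {φ : 𝓞 L →+* AlgebraicClosure (ZMod ℓ)} {σ : Gal(L/ℚ)}
    (hφ : HasFrob ℓ φ σ) {x : L} {c : ℤ} (hx : x ^ 2 = (c : L)) (hσ : σ x = x) :
    IsSquare (c : ZMod ℓ) := by
  set ξ : 𝓞 L := ⟨x, int_sq hx⟩ with hξ
  have h1 : σ • ξ = ξ := by
    apply RingOfIntegers.ext
    exact hσ
  have h2 := hφ ξ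
  rw [h1] at h2
  obtain ⟨z, hz⟩ := W54.ChTor.frob_fixed ℓ _ h2.symm
  refine ⟨z, ?_⟩
  apply (algebraMap (ZMod ℓ) (AlgebraicClosure (ZMod ℓ))).injective
  have h3 : ξ ^ 2 = (c : 𝓞 L) := by
    apply RingOfIntegers.ext
    push_cast
    exact hx
  rw [map_mul, hz, ← map_mul, ← sq, h3, map_intCast, map_intCast]

end

/-- the primes -/
def TT (a b : ℤ) (P : Finset ℕ) : Set ℕ :=
  {ℓ | ℓ % 8 = 1 ∧ ℓ ∉ P ∧ (∀ p ∈ P, p.Prime → IsSquare (ℓ : ZMod p)) ∧
    (∀ p ∈ P, p.Prime → IsSquare (p : ZMod ℓ)) ∧ ¬ ∃ y : ZMod ℓ, y ^ 4 + a * y ^ 2 + b = 0}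

/-- the primes for which there is a root -/
def TR (a b : ℤ) (P : Finset ℕ) : Set ℕ :=
  {ℓ | ℓ % 8 = 1 ∧ ℓ ∉ P ∧ (∀ p ∈ P, p.Prime → IsSquare (ℓ : ZMod p)) ∧
    (∀ p ∈ P, p.Prime → IsSquare (p : ZMod ℓ)) ∧ ∃ y : ZMod ℓ, y ^ 4 + a * y ^ 2 + b = 0}

section
variable {L : Type} [Field L] [NumberField L] {ℓ : ℕ} [hℓ : Fact ℓ.Prime]

/-- the quadratic symbols -/
theorem symbols (P : Finset ℕ) (h2 : ℓ ≠ 2) (hsq : ∀ c : ℤ, (c = -1 ∨ c = 2 ∨ ∃ p ∈ P, c = p) →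
    IsSquare (c : ZMod ℓ)) : ℓ % 8 = 1 ∧ (∀ p ∈ P, p.Prime → IsSquare (ℓ : ZMod p)) ∧
    (∀ p ∈ P, p.Prime → IsSquare (p : ZMod ℓ)) := by
  have h3 : ℓ % 4 ≠ 3 := by
    rw [← ZMod.exists_sq_eq_neg_one_iff]
    have := hsq (-1) (Or.inl rfl)
    push_cast at this
    exact this
  have h4 : ℓ % 8 = 1 ∨ ℓ % 8 = 7 := by
    rw [← ZMod.exists_sq_eq_two_iff h2]
    have := hsq 2 (Or.inr (Or.inl rfl))
    push_cast at this
    exact this
  have h8 : ℓ % 8 = 1 := by omega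
  have hP : ∀ p ∈ P, p.Prime → IsSquare (p : ZMod ℓ) := by
    intro p hp _
    have := hsq p (Or.inr (Or.inr ⟨p, hp, rfl⟩))
    push_cast at this
    exact this
  refine ⟨h8, fun p hp hpp => ?_, hP⟩
  have : Fact p.Prime := ⟨hpp⟩
  by_cases hp2 : p = 2
  · subst hp2
    generalize (ℓ : ZMod 2) = z
    revert z
    decide
  · exact (ZMod.exists_sq_eq_prime_iff_of_mod_four_eq_one (by omega) hp2).1 (hP p hp hpp)

/-- the sign change of the root excludes roots modulo `ℓ` -/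
theorem no_root {φ : 𝓞 L →+* AlgebraicClosure (ZMod ℓ)} {σ : Gal(L/ℚ)} (hφ : HasFrob ℓ φ σ)
    (h2 : ℓ ≠ 2) {a b : ℤ} (hb : (b : ZMod ℓ) ≠ 0) {θ β : L}
    (hθ : θ ^ 4 + (a : L) * θ ^ 2 + (b : L) = 0) (hβ : β ^ 2 = (b : L)) (hσθ : σ θ = -θ)
    (hσβ : σ β = β) {y : ZMod ℓ} (hy : y ^ 4 + a * y ^ 2 + b = 0) : False := by
  have hodd : Odd ℓ := hℓ.out.odd_of_ne_two h2
  set t : 𝓞 L := ⟨θ, int_root hθ⟩ with ht
  set u : 𝓞 L := ⟨β, int_sq hβ⟩ with hu
  have ht1 : σ • t = -t := by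
    apply RingOfIntegers.ext
    exact hσθ
  have hu1 : σ • u = u := by
    apply RingOfIntegers.ext
    exact hσβ
  have ht2 : (φ t) ^ ℓ = -φ t := by rw [← hφ t, ht1, map_neg]
  have hu2 : (φ u) ^ ℓ = φ u := by rw [← hφ u, hu1]
  set Y : AlgebraicClosure (ZMod ℓ) := algebraMap (ZMod ℓ) _ y with hY
  have hY2 : Y ^ ℓ = Y := by rw [hY, ← map_pow, ZMod.pow_card]
  have hY4 : Y ^ 4 + (a : AlgebraicClosure (ZMod ℓ)) * Y ^ 2 + (b : AlgebraicClosure (ZMod ℓ)) = 0 := by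
    have := congrArg (algebraMap (ZMod ℓ) (AlgebraicClosure (ZMod ℓ))) hy
    simpa using this
  have hbk : (b : AlgebraicClosure (ZMod ℓ)) ≠ 0 := by
    intro h
    apply hb
    apply (algebraMap (ZMod ℓ) (AlgebraicClosure (ZMod ℓ))).injective
    rw [map_zero, map_intCast, h]
  have h2k : (2 : AlgebraicClosure (ZMod ℓ)) ≠ 0 := by
    intro h
    have h3 : ((2 : ℕ) : ZMod ℓ) = 0 := by
      apply (algebraMap (ZMod ℓ) (AlgebraicClosure (ZMod ℓ))).injective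
      rw [map_zero, map_natCast]
      exact_mod_cast h
    rw [ZMod.natCast_eq_zero_iff] at h3
    exact h2 ((Nat.prime_dvd_prime_iff_eq hℓ.out Nat.prime_two).1 h3)
  have ht4 : (φ t) ^ 4 + (a : AlgebraicClosure (ZMod ℓ)) * (φ t) ^ 2 +
      (b : AlgebraicClosure (ZMod ℓ)) = 0 := by
    have h3 : t ^ 4 + (a : 𝓞 L) * t ^ 2 + (b : 𝓞 L) = 0 := by
      apply RingOfIntegers.ext
      push_cast
      exact hθ
    have := congrArg φ h3
    simpa using this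
  have hu4 : (φ u) ^ 2 = (b : AlgebraicClosure (ZMod ℓ)) := by
    have h3 : u ^ 2 = (b : 𝓞 L) := by
      apply RingOfIntegers.ext
      push_cast
      exact hβ
    rw [← map_pow, h3, map_intCast]
  have hYne : Y ≠ 0 := by
    intro h
    rw [h] at hY4
    exact hbk (by simpa using hY4)
  have htne : φ t ≠ 0 := by
    intro h
    rw [h] at ht4
    exact hbk (by simpa using ht4)
  have key : (Y ^ 2 - (φ t) ^ 2) * (Y ^ 2 + (φ t) ^ 2 + (a : AlgebraicClosure (ZMod ℓ))) = 0 := by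
    linear_combination hY4 - ht4
  rcases mul_eq_zero.1 key with h | h
  · rcases sq_eq_sq_iff_eq_or_eq_neg.1 (sub_eq_zero.1 h) with e | e
    · rw [e, ht2] at hY2
      have h3 : 2 * φ t = 0 := by linear_combination -hY2
      exact htne ((mul_eq_zero.1 h3).resolve_left h2k)
    · rw [e, hodd.neg_pow, ht2] at hY2
      have h3 : 2 * φ t = 0 := by linear_combination hY2
      exact htne ((mul_eq_zero.1 h3).resolve_left h2k)
  · have h5 : (Y * φ t) ^ 2 = (φ u) ^ 2 := by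
      rw [hu4]
      linear_combination (φ t) ^ 2 * h - ht4
    have h6 : (Y * φ t) ^ ℓ = -(Y * φ t) := by rw [mul_pow, hY2, ht2]; ring
    rcases sq_eq_sq_iff_eq_or_eq_neg.1 h5 with e | e
    · have h7 := h6
      rw [e, hu2, ← e] at h7
      have h3 : 2 * (Y * φ t) = 0 := by linear_combination h7
      exact mul_ne_zero hYne htne ((mul_eq_zero.1 h3).resolve_left h2k)
    · have h7 := h6
      rw [e, hodd.neg_pow, hu2, ← e] at h7
      have h3 : 2 * (Y * φ t) = 0 := by linear_combination h7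
      exact mul_ne_zero hYne htne ((mul_eq_zero.1 h3).resolve_left h2k)

end

/-- the number that excludes the bad primes -/
theorem exists_modulus (L : Type) [Field L] [NumberField L] [IsGalois ℚ L] {b : ℤ} (hb : b ≠ 0)
    (P : Finset ℕ) : ∃ D : ℕ, 0 < D ∧ ∀ (ℓ : ℕ) [Fact ℓ.Prime], ¬ ℓ ∣ D → ℓ ≠ 2 ∧ ℓ ∉ P ∧
      (b : ZMod ℓ) ≠ 0 ∧ Nonempty (𝓞 L →+* AlgebraicClosure (ZMod ℓ)) := by
  classical
  obtain ⟨D', hD', hT⟩ := torsor L
  refine ⟨2 * (∏ p ∈ P, if p = 0 then 1 else p) * b.natAbs * D', ?_, ?_⟩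
  · refine Nat.mul_pos (Nat.mul_pos (Nat.mul_pos (by norm_num) (Finset.prod_pos fun p _ => ?_))
      (Int.natAbs_pos.2 hb)) hD'
    split_ifs with h
    · exact one_pos
    · exact Nat.pos_of_ne_zero h
  · intro ℓ hℓ hnd
    refine ⟨?_, ?_, ?_, ?_⟩
    · rintro rfl
      exact hnd (((dvd_mul_right _ _).mul_right _).mul_right _)
    · intro hP
      apply hnd
      have h1 : ℓ ∣ ∏ p ∈ P, if p = 0 then 1 else p := by
        have h2 := Finset.dvd_prod_of_mem (fun p => if p = 0 then 1 else p) hP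
        rwa [if_neg hℓ.out.ne_zero] at h2
      exact ((h1.mul_left _).mul_right _).mul_right _
    · intro h0
      rw [ZMod.intCast_zmod_eq_zero_iff_dvd] at h0
      exact hnd ((Int.natCast_dvd.1 h0).mul_left _ |>.mul_right _)
    · have h1 := (hT ℓ (fun h => hnd (h.mul_left _))).1
      have h2 : 0 < Nat.card (𝓞 L →+* AlgebraicClosure (ZMod ℓ)) := by
        rw [h1]
        exact Nat.card_pos
      exact (Nat.card_pos_iff.1 h2).1

/-- **Primes with prescribed symbols and no root of `x⁴ + a x² + b`** have positive lower density. -/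
theorem cheb {a b : ℤ} (hb : ¬ IsSquare b) (hd : ¬ IsSquare (a ^ 2 - 4 * b)) (P : Finset ℕ) :
    ∃ δ : ℝ, 0 < δ ∧ HasLowerDensity (TT a b P) δ := by
  classical
  have hb0 : b ≠ 0 := by
    rintro rfl
    exact hb ⟨0, by ring⟩
  obtain ⟨L, h1, h2, h3, ⟨θ, hθ⟩, hC⟩ := exists_field a b
    ({-1, 2, b} ∪ P.image (fun p : ℕ => (p : ℤ)))
  obtain ⟨D, hD, hDT⟩ := exists_modulus L hb0 P
  have hne := SS_nonempty hb hd hθ
  refine ⟨_, ?_, lowerDensity_of_frob L (SS L a b) (fun g hg h => SS_conj hg h) (TT a b P) D hD ?_⟩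
  · have h4 : 0 < Nat.card (SS L a b) := by
      rw [Nat.card_pos_iff]
      exact ⟨hne.to_subtype, inferInstance⟩
    have h5 : 0 < Nat.card Gal(L/ℚ) := Nat.card_pos
    positivity
  · intro ℓ hℓ hnd hall
    obtain ⟨h6, h7, h8, ⟨φ⟩⟩ := hDT ℓ hnd
    obtain ⟨σ, hσ, hφ⟩ := hall φ
    have hsq : ∀ c : ℤ, (c = -1 ∨ c = 2 ∨ ∃ p ∈ P, c = p) → IsSquare (c : ZMod ℓ) := by
      intro c hc
      obtain ⟨x, hx⟩ := hC c (by
        rw [Finset.mem_union, Finset.mem_insert, Finset.mem_insert, Finset.mem_image]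
        rcases hc with h | h | ⟨p, hp, h⟩
        · exact Or.inl (Or.inl h)
        · exact Or.inl (Or.inr (Or.inl h))
        · exact Or.inr ⟨p, hp, h.symm⟩)
      exact isSquare_of_frob hφ hx (hσ.1 x c (by rw [hx]; push_cast; rfl))
    obtain ⟨k1, k2, k3⟩ := symbols P h6 hsq
    refine ⟨k1, h7, k2, k3, ?_⟩
    rintro ⟨y, hy⟩
    obtain ⟨β, hβ⟩ := hC b (by simp)
    exact no_root hφ h6 h8 hθ hβ (hσ.2 θ hθ) (hσ.1 β b (by rw [hβ]; push_cast; rfl)) hy

/-- **Primes with prescribed symbols and a root of `x⁴ + a x² + b`** have positive lower density. -/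
theorem cheb_root {a b : ℤ} (hb0 : b ≠ 0) (P : Finset ℕ) :
    ∃ δ : ℝ, 0 < δ ∧ HasLowerDensity (TR a b P) δ := by
  classical
  obtain ⟨L, h1, h2, h3, ⟨θ, hθ⟩, hC⟩ := exists_field a b
    ({-1, 2} ∪ P.image (fun p : ℕ => (p : ℤ)))
  obtain ⟨D, hD, hDT⟩ := exists_modulus L hb0 P
  refine ⟨_, ?_, lowerDensity_of_frob L {1} (fun g hg h => ?_) (TR a b P) D hD ?_⟩
  · have h5 : 0 < Nat.card Gal(L/ℚ) := Nat.card_pos
    have h4 : Nat.card ({1} : Set Gal(L/ℚ)) = 1 := by simp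
    rw [h4]
    positivity
  · rw [Set.mem_singleton_iff] at hg ⊢
    rw [hg, mul_one, inv_mul_cancel]
  · intro ℓ hℓ hnd hall
    obtain ⟨h6, h7, h8, ⟨φ⟩⟩ := hDT ℓ hnd
    obtain ⟨σ, hσ, hφ⟩ := hall φ
    rw [Set.mem_singleton_iff] at hσ
    subst hσ
    have hsq : ∀ c : ℤ, (c = -1 ∨ c = 2 ∨ ∃ p ∈ P, c = p) → IsSquare (c : ZMod ℓ) := by
      intro c hc
      obtain ⟨x, hx⟩ := hC c (by
        rw [Finset.mem_union, Finset.mem_insert, Finset.mem_singleton, Finset.mem_image]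
        rcases hc with h | h | ⟨p, hp, h⟩
        · exact Or.inl (Or.inl h)
        · exact Or.inl (Or.inr h)
        · exact Or.inr ⟨p, hp, h.symm⟩)
      exact isSquare_of_frob hφ hx rfl
    obtain ⟨k1, k2, k3⟩ := symbols P h6 hsq
    refine ⟨k1, h7, k2, k3, ?_⟩
    set t : 𝓞 L := ⟨θ, int_root hθ⟩ with ht
    have ht1 : (φ t) ^ ℓ = φ t := by
      rw [← hφ t, one_smul]
    obtain ⟨y, hy⟩ := W54.ChTor.frob_fixed ℓ _ ht1
    refine ⟨y, ?_⟩
    apply (algebraMap (ZMod ℓ) (AlgebraicClosure (ZMod ℓ))).injective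
    have h9 : t ^ 4 + (a : 𝓞 L) * t ^ 2 + (b : 𝓞 L) = 0 := by
      apply RingOfIntegers.ext
      push_cast
      exact hθ
    have h10 := congrArg φ h9
    rw [map_add, map_add, map_mul, map_pow, map_pow, hy, map_zero, map_intCast, map_intCast]
    simpa using h10

end Pool.Agent.V8H1.TW
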