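import Mathlib

/-!
# Automorphisms that fix all square roots and change the sign of the roots of a biquadratic polynomial
-/

set_option autoImplicit false

namespace Pool.Agent.V8H1.TW

open Polynomial NumberField

variable {L : Type} [Field L] [NumberField L] [IsGalois ℚ L]

/-- the automorphisms that fix all square roots of rational numbers -/
def NN (L : Type) [Field L] [NumberField L] : Set Gal(L/ℚ) :=
  {σ | ∀ (x : L) (c : ℚ), x ^ 2 = (c : L) → σ x = x}

/-- the automorphisms that fix all square roots of rational numbers and change the sign of all roots of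
`x⁴ + a x² + b` -/
def SS (L : Type) [Field L] [NumberField L] (a b : ℤ) : Set Gal(L/ℚ) :=
  {σ | σ ∈ NN L ∧ ∀ θ : L, θ ^ 4 + (a : L) * θ ^ 2 + (b : L) = 0 → σ θ = -θ}

omit [IsGalois ℚ L] in
theorem NN_conj {σ : Gal(L/ℚ)} (hσ : σ ∈ NN L) (h : Gal(L/ℚ)) : h⁻¹ * σ * h ∈ NN L := by
  intro x c hx
  have h1 : (h x) ^ 2 = (c : L) := by
    rw [← map_pow, hx, map_ratCast]
  have h2 := hσ (h x) c h1
  rw [AlgEquiv.mul_apply, AlgEquiv.mul_apply, h2]
  exact AlgEquiv.symm_apply_apply h x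

omit [IsGalois ℚ L] in
theorem SS_conj {a b : ℤ} {σ : Gal(L/ℚ)} (hσ : σ ∈ SS L a b) (h : Gal(L/ℚ)) :
    h⁻¹ * σ * h ∈ SS L a b := by
  refine ⟨NN_conj hσ.1 h, fun θ hθ => ?_⟩
  have h1 : (h θ) ^ 4 + (a : L) * (h θ) ^ 2 + (b : L) = 0 := by
    have := congrArg h hθ
    simpa using this
  rw [AlgEquiv.mul_apply, AlgEquiv.mul_apply, hσ.2 _ h1, map_neg]
  congr 1
  exact AlgEquiv.symm_apply_apply h θ

omit [IsGalois ℚ L] in
theorem sign {σ : Gal(L/ℚ)} {x : L} {c : ℚ} (hx : x ^ 2 = (c : L)) : σ x = x ∨ σ x = -x := by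
  have h1 : (σ x) ^ 2 = x ^ 2 := by
    rw [← map_pow, hx, map_ratCast]
  exact sq_eq_sq_iff_eq_or_eq_neg.1 h1

theorem mem_of_fixed {x : L} (h : ∀ σ : Gal(L/ℚ), σ x = x) : ∃ r : ℚ, (r : L) = x := by
  have h1 : x ∈ Set.range (algebraMap ℚ L) := (IsGalois.mem_range_algebraMap_iff_fixed x).2 h
  obtain ⟨r, hr⟩ := h1
  exact ⟨r, by rw [← hr]; simp⟩

omit [IsGalois ℚ L] in
theorem isSquare_of_rat {n : ℤ} {r : ℚ} (h : ((r : L)) ^ 2 = (n : L)) : IsSquare n := by
  have h1 : r ^ 2 = (n : ℚ) := by exact_mod_cast h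
  rw [← Rat.isSquare_intCast_iff]
  exact ⟨r, by rw [← h1, sq]⟩

/-- there is an automorphism fixing all square roots and changing the sign of the roots -/
theorem SS_nonempty {a b : ℤ} (hb : ¬ IsSquare b) (hd : ¬ IsSquare (a ^ 2 - 4 * b)) {θ : L}
    (hθ : θ ^ 4 + (a : L) * θ ^ 2 + (b : L) = 0) : (SS L a b).Nonempty := by
  have hb0 : b ≠ 0 := by
    rintro rfl
    exact hb ⟨0, by ring⟩
  have hbL : (b : L) ≠ 0 := by exact_mod_cast hb0
  have hθ0 : θ ≠ 0 := by
    rintro rfl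
    apply hbL
    simpa using hθ
  set δ : L := 2 * θ ^ 2 + a with hδ
  have hδ2 : δ ^ 2 = ((a ^ 2 - 4 * b : ℤ) : L) := by
    rw [hδ]
    push_cast
    linear_combination 4 * hθ
  have hδ2' : δ ^ 2 = (((a ^ 2 - 4 * b : ℤ) : ℚ) : L) := by
    rw [hδ2]; push_cast; rfl
  obtain ⟨τ, hτ⟩ : ∃ τ : Gal(L/ℚ), τ δ ≠ δ := by
    by_contra hcon
    push Not at hcon
    obtain ⟨r, hr⟩ := mem_of_fixed hcon
    exact hd (isSquare_of_rat (L := L) (r := r) (by rw [hr, hδ2]))
  have hτ' : τ δ = -δ := (sign hδ2').resolve_left hτ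
  set η : L := τ θ with hη
  have ht2 : (τ θ) ^ 2 = -a - θ ^ 2 := by
    have h1 : τ δ = 2 * (τ θ) ^ 2 + a := by
      rw [hδ, map_add, map_mul, map_pow, map_ofNat, map_intCast]
    rw [h1, hδ] at hτ'
    linear_combination (1/2 : L) * hτ'
  have hprod : (θ * η) ^ 2 = ((b : ℤ) : L) := by
    rw [mul_pow, hη, ht2]
    linear_combination -hθ
  -- some `σ` moves `θ`
  obtain ⟨σ, hσN, hσ⟩ : ∃ σ ∈ NN L, σ θ ≠ θ := by
    by_contra hcon
    push Not at hcon
    have hcomm : ∀ g h : Gal(L/ℚ), g (h θ) = h (g θ) := by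
      intro g h
      have h1 : (h * g)⁻¹ * (g * h) ∈ NN L := by
        intro x c hx
        rw [AlgEquiv.mul_apply, AlgEquiv.mul_apply]
        have h2 : g (h x) = (h * g) x := by
          rw [AlgEquiv.mul_apply]
          rcases sign (σ := g) hx with e1 | e1 <;> rcases sign (σ := h) hx with e2 | e2 <;>
            simp only [e1, e2, map_neg, neg_neg]
        rw [h2]
        exact AlgEquiv.symm_apply_apply (h * g) x
      have h2 := hcon _ h1
      have h3 := congrArg (h * g) h2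
      rw [← AlgEquiv.mul_apply, mul_inv_cancel_left, AlgEquiv.mul_apply, AlgEquiv.mul_apply] at h3
      exact h3
    have hsq : ∀ g : Gal(L/ℚ), g (g θ) = θ := by
      intro g
      have h1 : g * g ∈ NN L := by
        intro x c hx
        rw [AlgEquiv.mul_apply]
        rcases sign (σ := g) hx with e1 | e1 <;> simp only [e1, map_neg, neg_neg]
      have h2 := hcon _ h1
      rwa [AlgEquiv.mul_apply] at h2
    have hfix : ∀ g : Gal(L/ℚ), g (θ * η) = θ * η := by
      intro g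
      have hgη : g η = τ (g θ) := by rw [hη]; exact hcomm g τ
      have hgδ : g δ = 2 * (g θ) ^ 2 + a := by
        rw [hδ, map_add, map_mul, map_pow, map_ofNat, map_intCast]
      rw [map_mul, hgη]
      rcases sign (σ := g) hδ2' with e | e
      · have h1 : (g θ) ^ 2 = θ ^ 2 := by
          rw [hgδ, hδ] at e
          linear_combination (1/2 : L) * e
        rcases sq_eq_sq_iff_eq_or_eq_neg.1 h1 with e1 | e1
        · rw [e1]
        · rw [e1, map_neg]; ring
      · have h1 : (g θ) ^ 2 = η ^ 2 := by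
          rw [hη, ht2]
          rw [hgδ, hδ] at e
          linear_combination (1/2 : L) * e
        rcases sq_eq_sq_iff_eq_or_eq_neg.1 h1 with e1 | e1
        · rw [e1, hη, hsq]; ring
        · rw [e1, map_neg, hη, hsq]; ring
    obtain ⟨r, hr⟩ := mem_of_fixed hfix
    exact hb (isSquare_of_rat (L := L) (r := r) (by rw [hr, hprod]))
  have hσδ : σ δ = δ := hσN δ _ hδ2'
  have hσθ : σ θ = -θ := by
    have h1 : σ δ = 2 * (σ θ) ^ 2 + a := by
      rw [hδ, map_add, map_mul, map_pow, map_ofNat, map_intCast]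
    have h2 : (σ θ) ^ 2 = θ ^ 2 := by
      rw [h1, hδ] at hσδ
      linear_combination (1/2 : L) * hσδ
    exact (sq_eq_sq_iff_eq_or_eq_neg.1 h2).resolve_left hσ
  refine ⟨σ, hσN, fun ξ hξ => ?_⟩
  have h1 : (ξ ^ 2 - θ ^ 2) * (ξ ^ 2 + θ ^ 2 + a) = 0 := by
    linear_combination hξ - hθ
  rcases mul_eq_zero.1 h1 with h2 | h2
  · rcases sq_eq_sq_iff_eq_or_eq_neg.1 (sub_eq_zero.1 h2) with e | e
    · rw [e, hσθ]
    · rw [e, map_neg, hσθ]
  · have h3 : (θ * ξ) ^ 2 = ((b : ℚ) : L) := by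
      rw [mul_pow]
      push_cast
      linear_combination θ ^ 2 * h2 - hθ
    have h4 := hσN _ _ h3
    rw [map_mul, hσθ] at h4
    have h5 : θ * (σ ξ + ξ) = 0 := by linear_combination -h4
    have h6 := (mul_eq_zero.1 h5).resolve_left hθ0
    exact eq_neg_of_add_eq_zero_left h6

theorem exists_galois' {F : Type} [Field F] [CharZero F] (f : F[X]) :
    ∃ (L : Type) (_ : Field L) (_ : Algebra F L) (_ : FiniteDimensional F L)
    (_ : IsGalois F L), (f.map (algebraMap F L)).Splits := by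
  have hnor : Normal F f.SplittingField := Normal.of_isSplittingField f
  exact ⟨f.SplittingField, inferInstance, inferInstance, inferInstance, { },
    SplittingField.splits f⟩

/-- a Galois number field over which `f` splits -/
theorem exists_galois (f : ℚ[X]) : ∃ (L : Type) (_ : Field L) (_ : NumberField L)
    (_ : IsGalois ℚ L), (f.map (algebraMap ℚ L)).Splits := by
  obtain ⟨L, hL, hA, hfd, hG, hs⟩ := exists_galois' f
  have hc : CharZero L := charZero_of_injective_algebraMap (algebraMap ℚ L).injective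
  have h0 : hA = DivisionRing.toRatAlgebra := Subsingleton.elim _ _
  subst h0
  exact ⟨L, hL, ⟨⟩, hG, hs⟩

theorem root_of_dvd {f g : ℚ[X]} (h : g ∣ f) (hf : f ≠ 0) (hg : g.natDegree ≠ 0)
    (hs : (f.map (algebraMap ℚ L)).Splits) : ∃ x : L, g.aeval x = 0 := by
  have h1 : (g.map (algebraMap ℚ L)).Splits :=
    hs.of_dvd (by
      rw [Ne, Polynomial.map_eq_zero]
      exact hf) (Polynomial.map_dvd _ h)
  have h2 : (g.map (algebraMap ℚ L)).degree ≠ 0 := by
    rw [Polynomial.degree_map]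
    intro h3
    exact hg (Polynomial.natDegree_eq_zero_iff_degree_le_zero.2 h3.le)
  obtain ⟨x, hx⟩ := h1.exists_eval_eq_zero h2
  refine ⟨x, ?_⟩
  rwa [Polynomial.eval_map_algebraMap] at hx

/-- a Galois number field with a root of `x⁴ + a x² + b` and square roots of the elements of a finite set -/
theorem exists_field (a b : ℤ) (C : Finset ℤ) : ∃ (L : Type) (_ : Field L) (_ : NumberField L)
    (_ : IsGalois ℚ L), (∃ θ : L, θ ^ 4 + (a : L) * θ ^ 2 + (b : L) = 0) ∧
      ∀ c ∈ C, ∃ x : L, x ^ 2 = (c : L) := by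
  set q : ℚ[X] := X ^ 4 + Polynomial.C (a : ℚ) * X ^ 2 + Polynomial.C (b : ℚ) with hq
  set r : ℤ → ℚ[X] := fun c => X ^ 2 - Polynomial.C (c : ℚ) with hr
  have hq0 : q.natDegree = 4 := by rw [hq]; compute_degree!
  have hr0 : ∀ c, (r c).natDegree = 2 := fun c => Polynomial.natDegree_X_pow_sub_C
  have hqn : q ≠ 0 := by
    rintro h
    rw [h] at hq0
    simp at hq0
  have hrn : ∀ c, r c ≠ 0 := by
    intro c h
    have := hr0 c
    rw [h] at this
    simp at this
  set f : ℚ[X] := q * ∏ c ∈ C, r c with hf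
  have hfn : f ≠ 0 := mul_ne_zero hqn (Finset.prod_ne_zero_iff.2 fun c _ => hrn c)
  obtain ⟨L, h1, h2, h3, h4⟩ := exists_galois f
  refine ⟨L, h1, h2, h3, ?_, ?_⟩
  · obtain ⟨θ, hθ⟩ := root_of_dvd (L := L) (Dvd.intro _ rfl : q ∣ f) hfn (by rw [hq0]; norm_num) h4
    refine ⟨θ, ?_⟩
    simpa [hq] using hθ
  · intro c hc
    obtain ⟨x, hx⟩ := root_of_dvd (L := L) (g := r c)
      ((Finset.dvd_prod_of_mem r hc).trans (Dvd.intro_left _ rfl)) hfn (by rw [hr0]; norm_num) h4
    refine ⟨x, ?_⟩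
    have : x ^ 2 - (c : L) = 0 := by simpa [hr] using hx
    linear_combination this

end Pool.Agent.V8H1.TW
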